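import Pool.Agent.helper82.LEQ.Spec

/-!
# MP_e82547_al: row PRO (product formula)
-/

set_option autoImplicit false

namespace LEQ

open scoped BigOperators
open QS (Lef EAb)

theorem PRO_EAb {G : Type} [Group G] {p : ℕ} {E F : Subgroup G} (hE : EAb p E) (h : F ≤ E) :
    EAb p F :=
  ⟨fun x hx y hy => hE.1 x (h hx) y (h hy), fun x hx => hE.2 x (h hx)⟩

/-- the contribution of the fibre over `(E₁, E₂)` -/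
noncomputable def PRO_Phi {G : Type} [Group G] [Finite G] (p : ℕ) (H₁ H₂ : Subgroup G) (h : G)
    (x : Subgroup G × Subgroup G) : ℤ :=
  ∑ E ∈ FS (fun E : Subgroup G => (E ≤ H₁ ⊔ H₂ ∧ EAb p E ∧ Stb h E) ∧
    (E ⊔ H₂) ⊓ H₁ = x.1 ∧ (E ⊔ H₁) ⊓ H₂ = x.2), Mb h E

theorem PRO_fib {G : Type} [Group G] [Finite G] (p : ℕ) (H₁ H₂ : Subgroup G) (h : G)
    (s : Finset (Subgroup G)) (t : Finset (Subgroup G × Subgroup G))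
    (hs : ∀ E ∈ s, (E ≤ H₁ ⊔ H₂ ∧ EAb p E ∧ Stb h E) ∧ ((E ⊔ H₂) ⊓ H₁, (E ⊔ H₁) ⊓ H₂) ∈ t)
    (ht : ∀ E : Subgroup G, (E ≤ H₁ ⊔ H₂ ∧ EAb p E ∧ Stb h E) →
      ((E ⊔ H₂) ⊓ H₁, (E ⊔ H₁) ⊓ H₂) ∈ t → E ∈ s) :
    ∑ E ∈ s, Mb h E = ∑ x ∈ t, PRO_Phi p H₁ H₂ h x := by
  classical
  rw [← Finset.sum_fiberwise_of_maps_to
    (g := fun E : Subgroup G => ((E ⊔ H₂) ⊓ H₁, (E ⊔ H₁) ⊓ H₂)) (fun E hE => (hs E hE).2)]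
  refine Finset.sum_congr rfl fun x hx => ?_
  unfold PRO_Phi
  refine Finset.sum_congr ?_ fun _ _ => rfl
  ext E
  rw [Finset.mem_filter, mem_FS]
  constructor
  · rintro ⟨h1, h2⟩
    exact ⟨(hs E h1).1, congrArg Prod.fst h2, congrArg Prod.snd h2⟩
  · rintro ⟨h1, h2, h3⟩
    have h4 : ((E ⊔ H₂) ⊓ H₁, (E ⊔ H₁) ⊓ H₂) = x := Prod.ext h2 h3
    refine ⟨ht E h1 ?_, h4⟩
    rw [h4]
    exact hx

theorem PRO (h1 : MB_stmt) (h2 : PRA_stmt) : PRO_stmt := by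
  classical
  intro G _ _ p H₁ H₂ hdir h₁ hh₁ h₂ hh₂
  obtain ⟨p1, p2, p3, p4, p5⟩ := h2 G p H₁ H₂ hdir h₁ hh₁ h₂ hh₂
  set h : G := h₁ * h₂ with hh
  -- the sums over the lower intervals
  have key : ∀ E₁ E₂ : Subgroup G, (E₁ ≤ H₁ ∧ EAb p E₁ ∧ Stb h₁ E₁) →
      (E₂ ≤ H₂ ∧ EAb p E₂ ∧ Stb h₂ E₂) →
      ∑ x ∈ (FS (fun F : Subgroup G => F ≤ E₁ ∧ Stb h₁ F)) ×ˢ
          (FS (fun F : Subgroup G => F ≤ E₂ ∧ Stb h₂ F)),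
        (PRO_Phi p H₁ H₂ h x - Mb h₁ x.1 * Mb h₂ x.2) = 0 := by
    rintro E₁ E₂ ⟨a1, a2, a3⟩ ⟨b1, b2, b3⟩
    rw [Finset.sum_sub_distrib]
    have hSt : Stb h (E₁ ⊔ E₂) := (p5 E₁ E₂ a1 b1).1 a3 b3
    have hle : E₁ ⊔ E₂ ≤ H₁ ⊔ H₂ := sup_le_sup a1 b1
    have e1 : ∑ x ∈ (FS (fun F : Subgroup G => F ≤ E₁ ∧ Stb h₁ F)) ×ˢ
        (FS (fun F : Subgroup G => F ≤ E₂ ∧ Stb h₂ F)), PRO_Phi p H₁ H₂ h x =
        ∑ E ∈ FS (fun F : Subgroup G => F ≤ E₁ ⊔ E₂ ∧ Stb h F), Mb h E := by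
      refine (PRO_fib p H₁ H₂ h _ _ ?_ ?_).symm
      · intro E hE
        rw [mem_FS] at hE
        have c1 : E ≤ H₁ ⊔ H₂ := hE.1.trans hle
        refine ⟨⟨c1, PRO_EAb (p2 E₁ E₂ a1 b1 a2 b2) hE.1, hE.2⟩, ?_⟩
        rw [Finset.mem_product, mem_FS, mem_FS]
        have c2 := (p4 E E₁ E₂ c1 a1 b1).1 hE.1
        have c3 := p3 E c1 hE.2
        exact ⟨⟨c2.1, c3.1⟩, c2.2, c3.2⟩
      · rintro E ⟨c1, c2, c3⟩ hE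
        rw [Finset.mem_product, mem_FS, mem_FS] at hE
        rw [mem_FS]
        exact ⟨(p4 E E₁ E₂ c1 a1 b1).2 ⟨hE.1.1, hE.2.1⟩, c3⟩
    have e2 : ∑ x ∈ (FS (fun F : Subgroup G => F ≤ E₁ ∧ Stb h₁ F)) ×ˢ
        (FS (fun F : Subgroup G => F ≤ E₂ ∧ Stb h₂ F)), Mb h₁ x.1 * Mb h₂ x.2 =
        (∑ F ∈ FS (fun F : Subgroup G => F ≤ E₁ ∧ Stb h₁ F), Mb h₁ F) *
          ∑ F ∈ FS (fun F : Subgroup G => F ≤ E₂ ∧ Stb h₂ F), Mb h₂ F := by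
      rw [Finset.sum_product, Finset.sum_mul_sum]
    rw [e1, e2]
    have m := h1 G h (E₁ ⊔ E₂) hSt
    have m1 := h1 G h₁ E₁ a3
    have m2 := h1 G h₂ E₂ b3
    by_cases hb : E₁ ⊔ E₂ = ⊥
    · obtain ⟨hb1, hb2⟩ := (p5 E₁ E₂ a1 b1).2.1 hb
      rw [m.1 hb, m1.1 hb1, m2.1 hb2]
      norm_num
    · rw [m.2 hb]
      by_cases hb1 : E₁ = ⊥
      · have hb2 : E₂ ≠ ⊥ := fun hb2 => hb ((p5 E₁ E₂ a1 b1).2.2 ⟨hb1, hb2⟩)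
        rw [m2.2 hb2, mul_zero, sub_zero]
      · rw [m1.2 hb1, zero_mul, sub_zero]
  -- induction
  have hD : ∀ x : Subgroup G × Subgroup G, (x.1 ≤ H₁ ∧ EAb p x.1 ∧ Stb h₁ x.1) →
      (x.2 ≤ H₂ ∧ EAb p x.2 ∧ Stb h₂ x.2) →
      PRO_Phi p H₁ H₂ h x - Mb h₁ x.1 * Mb h₂ x.2 = 0 := by
    intro x
    induction x using WellFoundedLT.induction with
    | ind x ih =>
      intro ha hb
      have k := key x.1 x.2 ha hb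
      rw [Finset.sum_eq_single x] at k
      · exact k
      · intro y hy hyx
        rw [Finset.mem_product, mem_FS, mem_FS] at hy
        have hlt : y < x := lt_of_le_of_ne ⟨hy.1.1, hy.2.1⟩ hyx
        exact ih y hlt ⟨hy.1.1.trans ha.1, PRO_EAb ha.2.1 hy.1.1, hy.1.2⟩
          ⟨hy.2.1.trans hb.1, PRO_EAb hb.2.1 hy.2.1, hy.2.2⟩
      · intro hx
        exfalso
        apply hx
        rw [Finset.mem_product, mem_FS, mem_FS]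
        exact ⟨⟨le_rfl, ha.2.2⟩, le_rfl, hb.2.2⟩
  -- the total sum
  have e3 : ∑ E ∈ FS (fun E : Subgroup G => E ≤ H₁ ⊔ H₂ ∧ EAb p E ∧ Stb h E), Mb h E =
      ∑ x ∈ (FS (fun E : Subgroup G => E ≤ H₁ ∧ EAb p E ∧ Stb h₁ E)) ×ˢ
        (FS (fun E : Subgroup G => E ≤ H₂ ∧ EAb p E ∧ Stb h₂ E)), PRO_Phi p H₁ H₂ h x := by
    refine PRO_fib p H₁ H₂ h _ _ ?_ ?_
    · intro E hE
      rw [mem_FS] at hE
      obtain ⟨c1, c2, c3⟩ := hE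
      refine ⟨⟨c1, c2, c3⟩, ?_⟩
      rw [Finset.mem_product, mem_FS, mem_FS]
      have d1 := p1 E c1 c2
      have d3 := p3 E c1 c3
      exact ⟨⟨inf_le_right, d1.1, d3.1⟩, inf_le_right, d1.2, d3.2⟩
    · intro E hE _
      rw [mem_FS]
      exact hE
  have e4 : ∑ x ∈ (FS (fun E : Subgroup G => E ≤ H₁ ∧ EAb p E ∧ Stb h₁ E)) ×ˢ
        (FS (fun E : Subgroup G => E ≤ H₂ ∧ EAb p E ∧ Stb h₂ E)), PRO_Phi p H₁ H₂ h x =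
      ∑ x ∈ (FS (fun E : Subgroup G => E ≤ H₁ ∧ EAb p E ∧ Stb h₁ E)) ×ˢ
        (FS (fun E : Subgroup G => E ≤ H₂ ∧ EAb p E ∧ Stb h₂ E)), Mb h₁ x.1 * Mb h₂ x.2 := by
    refine Finset.sum_congr rfl fun x hx => ?_
    rw [Finset.mem_product, mem_FS, mem_FS] at hx
    exact sub_eq_zero.1 (hD x hx.1 hx.2)
  unfold Ls
  rw [e3, e4, Finset.sum_product, ← Finset.sum_mul_sum]
  ring

end LEQ
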